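import Pool.Agent.Helper14.GH.DefsD
import Pool.Agent.Helper14.GH.HW5
import Pool.Agent.Helper54.TR.EC
import Pool.Agent.Helper71.OW.MTs

/-!
Block GH-UP (project GH for MP_b8862a_ag, owner helper14): the upper bound for the Mumford-Tate group in the
self-dual case. Determinant tensors of the blocks.
-/

set_option linter.unusedSectionVars false

open Matrix

namespace MH

variable {n : Type*} [Fintype n] [DecidableEq n]

section tensors32

variable {A₀ : Type*} [CommRing A₀]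

/-- product of tensors -/
private def pt32 {a b : ℕ} (u : (Fin a → n) → A₀) (v : (Fin b → n) → A₀) : (Fin a ⊕ Fin b → n) → A₀ :=
  fun i => u (fun k => i (Sum.inl k)) * v (fun k => i (Sum.inr k))

private lemma eig_pt32 {a b : ℕ} {u : (Fin a → n) → A₀} {v : (Fin b → n) → A₀} {g g' : Matrix n n A₀} {c d : A₀}
    (hu : actF (fun _ => g) u = c • u) (hv : actF (fun _ => g'ᵀ) v = d • v) :
    actF (slot a b g g') (pt32 u v) = (c * d) • pt32 u v := by
  funext i
  have h1 : actF (slot a b g g') (pt32 u v) i =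
      actF (fun _ => g) u (fun k => i (Sum.inl k)) * actF (fun _ => g'ᵀ) v (fun k => i (Sum.inr k)) := by
    unfold actF
    rw [Finset.sum_mul_sum, ← Fintype.sum_prod_type']
    refine Fintype.sum_equiv (Equiv.sumArrowEquivProdArrow (Fin a) (Fin b) n) _ _ fun j => ?_
    rw [Fintype.prod_sum_type]
    simp only [slot, Sum.elim_inl, Sum.elim_inr, pt32, Equiv.sumArrowEquivProdArrow, Equiv.coe_fn_mk,
      Function.comp_def]
    ring
  rw [h1, hu, hv]
  simp only [Pi.smul_apply, smul_eq_mul, pt32]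
  ring

/-- the tensor `M ⊗ ... ⊗ M` -/
private def qt32 (h : ℕ) (M : Matrix n n A₀) : (Fin (h * 2) → n) → A₀ :=
  fun j => ∏ l : Fin h, M (j (finProdFinEquiv (l, 0))) (j (finProdFinEquiv (l, 1)))

private lemma act_qt32 (h : ℕ) (B M : Matrix n n A₀) :
    actF (fun _ => B) (qt32 h M) = qt32 h (B * M * Bᵀ) := by
  funext i
  unfold actF qt32
  have h1 : ∀ l : Fin h, (B * M * Bᵀ) (i (finProdFinEquiv (l, 0))) (i (finProdFinEquiv (l, 1))) =
      ∑ w : Fin 2 → n, B (i (finProdFinEquiv (l, 0))) (w 0) * B (i (finProdFinEquiv (l, 1))) (w 1) *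
        M (w 0) (w 1) := by
    intro l
    rw [← Equiv.sum_comp (finTwoArrowEquiv n).symm, Fintype.sum_prod_type]
    simp only [Matrix.mul_apply, Finset.sum_mul, Matrix.transpose_apply, finTwoArrowEquiv_symm_apply,
      Matrix.cons_val_zero, Matrix.cons_val_one]
    rw [Finset.sum_comm]
    refine Finset.sum_congr rfl fun x _ => Finset.sum_congr rfl fun y _ => ?_
    ring
  simp_rw [h1]
  rw [Finset.prod_univ_sum, Fintype.piFinset_univ]
  refine Fintype.sum_equiv ((Equiv.arrowCongr (finProdFinEquiv (m := h) (n := 2)).symm (Equiv.refl n)).trans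
    (Equiv.curry (Fin h) (Fin 2) n)) _ _ fun j => ?_
  rw [← Equiv.prod_comp (finProdFinEquiv (m := h) (n := 2)), Fintype.prod_prod_type, ← Finset.prod_mul_distrib]
  refine Finset.prod_congr rfl fun l _ => ?_
  rw [Fin.prod_univ_two]
  rfl

private lemma qt_smul32 (h : ℕ) (c : A₀) (M : Matrix n n A₀) : qt32 h (c • M) = c ^ h • qt32 h M := by
  funext j
  simp only [qt32, Matrix.smul_apply, smul_eq_mul, Finset.prod_mul_distrib, Finset.prod_const,
    Finset.card_univ, Fintype.card_fin, Pi.smul_apply]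

private lemma qt_ne32 [IsDomain A₀] {M : Matrix n n A₀} {x y : n} (hxy : M x y ≠ 0) (h : ℕ) :
    qt32 h M (fun k => if (finProdFinEquiv.symm k).2 = 0 then x else y) ≠ 0 := by
  unfold qt32
  rw [Finset.prod_ne_zero_iff]
  intro l _
  simpa using hxy

/-- the determinant of a product, expanded in the rows of the second factor -/
private lemma det_mul32 {r : ℕ} (B : Matrix (Fin r) n A₀) (W : Matrix n (Fin r) A₀) :
    (B * W).det = ∑ j : Fin r → n, (∏ k, B k (j k)) * (W.submatrix j id).det := by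
  have hd : ∀ N : Matrix (Fin r) (Fin r) A₀,
      N.det = ∑ σ : Equiv.Perm (Fin r), ((Equiv.Perm.sign σ : ℤ) : A₀) * ∏ k, N k (σ k) := by
    intro N
    rw [← Matrix.det_transpose, Matrix.det_apply']
    rfl
  simp_rw [hd, Finset.mul_sum]
  rw [Finset.sum_comm]
  refine Finset.sum_congr rfl fun σ _ => ?_
  simp_rw [Matrix.mul_apply]
  rw [Finset.prod_univ_sum, Fintype.piFinset_univ, Finset.mul_sum]
  refine Finset.sum_congr rfl fun j _ => ?_
  rw [Finset.prod_mul_distrib]
  simp only [Matrix.submatrix_apply, id]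
  ring

/-- the determinant tensor -/
private def dt32 {r : ℕ} (W : Matrix n (Fin r) A₀) : (Fin r → n) → A₀ := fun i => (W.submatrix i id).det

private lemma act_dt32 {r : ℕ} {W : Matrix n (Fin r) A₀} {g : Matrix n n A₀} {N : Matrix (Fin r) (Fin r) A₀}
    (hg : g * W = W * N) : actF (fun _ => g) (dt32 W) = N.det • dt32 W := by
  funext i
  have h1 := det_mul32 (g.submatrix i id) W
  have h2 : g.submatrix i id * W = W.submatrix i id * N := by
    have h3 : g.submatrix i id * W = (g * W).submatrix i id := by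
      ext a b
      simp [Matrix.mul_apply]
    have h4 : W.submatrix i id * N = (W * N).submatrix i id := by
      ext a b
      simp [Matrix.mul_apply]
    rw [h3, h4, hg]
  rw [h2, Matrix.det_mul] at h1
  simp only [Pi.smul_apply, smul_eq_mul, dt32, actF]
  simp only [Matrix.submatrix_apply, id] at h1
  rw [← h1]
  ring

private lemma dt_ne32 [Nontrivial A₀] {r : ℕ} {W : Matrix n (Fin r) A₀} {V : Matrix (Fin r) n A₀} (h : V * W = 1) :
    ∃ i, dt32 W i ≠ 0 := by
  by_contra hcon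
  push Not at hcon
  have h1 := det_mul32 V W
  rw [h, Matrix.det_one, Finset.sum_eq_zero] at h1
  · exact one_ne_zero h1
  · intro j _
    have h2 := hcon j
    unfold dt32 at h2
    rw [h2, mul_zero]

/-- the product of two tensors in the first slots -/
private def at32 {a b : ℕ} (u : (Fin a → n) → A₀) (v : (Fin b → n) → A₀) : (Fin (a + b) → n) → A₀ :=
  fun i => u (fun k => i (Fin.castAdd b k)) * v (fun k => i (Fin.natAdd a k))

private lemma act_at32 {a b : ℕ} {u : (Fin a → n) → A₀} {v : (Fin b → n) → A₀} {g : Matrix n n A₀} {c d : A₀}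
    (hu : actF (fun _ => g) u = c • u) (hv : actF (fun _ => g) v = d • v) :
    actF (fun _ => g) (at32 u v) = (c * d) • at32 u v := by
  funext i
  have h1 : actF (fun _ => g) (at32 u v) i =
      actF (fun _ => g) u (fun k => i (Fin.castAdd b k)) * actF (fun _ => g) v (fun k => i (Fin.natAdd a k)) := by
    unfold actF
    rw [Finset.sum_mul_sum, ← Fintype.sum_prod_type']
    refine Fintype.sum_equiv (((Equiv.arrowCongr (finSumFinEquiv (m := a) (n := b)).symm (Equiv.refl n))).trans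
      (Equiv.sumArrowEquivProdArrow (Fin a) (Fin b) n)) _ _ fun j => ?_
    rw [Fin.prod_univ_add]
    simp only [at32, Equiv.sumArrowEquivProdArrow, Equiv.coe_fn_mk, Function.comp_def, Equiv.trans_apply,
      Equiv.arrowCongr_apply, Equiv.symm_symm, finSumFinEquiv_apply_left,
      finSumFinEquiv_apply_right, Equiv.coe_refl, id]
    ring
  rw [h1, hu, hv]
  simp only [Pi.smul_apply, smul_eq_mul, at32]
  ring

private lemma at_ne32 [IsDomain A₀] {a b : ℕ} {u : (Fin a → n) → A₀} {v : (Fin b → n) → A₀}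
    (hu : ∃ i, u i ≠ 0) (hv : ∃ i, v i ≠ 0) : ∃ i, at32 u v i ≠ 0 := by
  obtain ⟨i, hi⟩ := hu
  obtain ⟨j, hj⟩ := hv
  refine ⟨Fin.append i j, ?_⟩
  unfold at32
  simp only [Fin.append_left, Fin.append_right]
  exact mul_ne_zero hi hj

end tensors32

/-! ### idempotents -/

private lemma fac32 {e : Matrix n n ℂ} (hee : e * e = e) :
    ∃ (W : Matrix n (Fin e.rank) ℂ) (V : Matrix (Fin e.rank) n ℂ), V * W = 1 ∧ W * V = e := by
  classical
  have hr : Module.finrank ℂ (LinearMap.range e.mulVecLin) = e.rank := rfl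
  let b := Module.finBasisOfFinrankEq ℂ (LinearMap.range e.mulVecLin) hr
  let φ : (n → ℂ) →ₗ[ℂ] (Fin e.rank → ℂ) := b.equivFun.toLinearMap ∘ₗ e.mulVecLin.rangeRestrict
  let ψ : (Fin e.rank → ℂ) →ₗ[ℂ] (n → ℂ) :=
    (LinearMap.range e.mulVecLin).subtype ∘ₗ b.equivFun.symm.toLinearMap
  refine ⟨LinearMap.toMatrix' ψ, LinearMap.toMatrix' φ, ?_, ?_⟩
  · rw [← LinearMap.toMatrix'_comp, ← LinearMap.toMatrix'_id]
    congr 1
    refine LinearMap.ext fun x => ?_
    have h1 : ∀ u : LinearMap.range e.mulVecLin, e.mulVecLin.rangeRestrict (u : n → ℂ) = u := by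
      rintro ⟨u, v, rfl⟩
      apply Subtype.ext
      simp only [LinearMap.codRestrict_apply, Matrix.mulVecLin_apply, LinearMap.rangeRestrict]
      rw [Matrix.mulVec_mulVec, hee]
    simp only [φ, ψ, LinearMap.comp_apply, Submodule.subtype_apply, LinearEquiv.coe_coe, LinearMap.id_apply]
    rw [h1, LinearEquiv.apply_symm_apply]
  · rw [← LinearMap.toMatrix'_comp]
    have h2 : ψ ∘ₗ φ = e.mulVecLin := by
      refine LinearMap.ext fun x => ?_
      simp only [φ, ψ, LinearMap.comp_apply, Submodule.subtype_apply, LinearEquiv.coe_coe,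
        LinearEquiv.symm_apply_apply]
      rfl
    rw [h2, ← Matrix.toLin'_apply', LinearMap.toMatrix'_toLin']

private lemma det32 {k : Type*} [Fintype k] [DecidableEq k] {e g : Matrix n n ℂ} {W : Matrix n k ℂ}
    {V : Matrix k n ℂ} (h1 : V * W = 1) (h2 : W * V = e) : (g * e + (1 - e)).det = (V * g * W).det := by
  have h3 : g * e + (1 - e) = 1 + ((g - 1) * W) * V := by
    rw [Matrix.mul_assoc, h2, Matrix.sub_mul, Matrix.one_mul]
    abel
  have h4 : 1 + V * ((g - 1) * W) = V * g * W := by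
    rw [Matrix.sub_mul, Matrix.one_mul, Matrix.mul_sub, h1, ← Matrix.mul_assoc]
    abel
  rw [h3, Matrix.det_one_add_mul_comm, h4]

private lemma comm_fac32 {k : Type*} [Fintype k] [DecidableEq k] {e A : Matrix n n ℂ} {W : Matrix n k ℂ}
    {V : Matrix k n ℂ} (h1 : V * W = 1) (h2 : W * V = e) (hA : A * e = e * A) : A * W = W * (V * A * W) := by
  have e1 : e * W = W := by rw [← h2, Matrix.mul_assoc, h1, Matrix.mul_one]
  calc A * W = A * (e * W) := by rw [e1]
    _ = e * A * W := by rw [← Matrix.mul_assoc, hA]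
    _ = W * (V * A * W) := by
      rw [← h2]
      simp only [Matrix.mul_assoc]


/-- the square of the determinant on a block with a nondegenerate form -/
private lemma det_sq32 {k : Type*} [Fintype k] [DecidableEq k] {Q' x A : Matrix n n ℂ} {W : Matrix n k ℂ}
    {N : Matrix k k ℂ} {c : ℂ} (hW : A * W = W * N) (hx : A * x = x * A) (hc : Aᵀ * Q' * A = c • Q')
    {K : Matrix k k ℂ} (hF : K * (Wᵀ * (Q' * x) * W) = 1) : N.det ^ 2 = c ^ Fintype.card k := by
  set F := Wᵀ * (Q' * x) * W with hFF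
  have h1 : Nᵀ * F * N = c • F := by
    calc Nᵀ * F * N = (W * N)ᵀ * (Q' * x) * (W * N) := by
          rw [hFF, Matrix.transpose_mul]
          simp only [Matrix.mul_assoc]
      _ = Wᵀ * ((Aᵀ * Q' * A) * x) * W := by
          rw [← hW, Matrix.transpose_mul]
          simp only [Matrix.mul_assoc]
          rw [← Matrix.mul_assoc x A, ← hx]
          simp only [Matrix.mul_assoc]
      _ = c • F := by
          rw [hc, hFF]
          simp only [Matrix.smul_mul, Matrix.mul_smul]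
  have h2 := congrArg Matrix.det h1
  rw [Matrix.det_mul, Matrix.det_mul, Matrix.det_transpose, Matrix.det_smul] at h2
  have h3 : F.det ≠ 0 := by
    intro h0
    have h4 := congrArg Matrix.det hF
    rw [Matrix.det_mul, h0, mul_zero, Matrix.det_one] at h4
    exact zero_ne_one h4
  have h4 : F.det * (N.det ^ 2 - c ^ Fintype.card k) = 0 := by linear_combination h2
  exact sub_eq_zero.1 ((mul_eq_zero.1 h4).resolve_left h3)

variable {w : ℤ} {Q : Matrix n n ℚ} {S : Finset ℤ} {P : ℤ → Matrix n n ℂ}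

private lemma EC_C0_32 {x : Matrix n n ℂ} (hx : x ∈ EC P) : x * C0 S P = C0 S P * x := by
  unfold C0
  rw [Finset.mul_sum, Finset.sum_mul]
  refine Finset.sum_congr rfl fun p _ => ?_
  rw [mul_smul_comm, smul_mul_assoc, EC_P hx]

/-- the form on a block is nondegenerate -/
private lemma nondeg32 (H : IsHW w Q S P) {e x : Matrix n n ℂ} (he : IsBlk P e) (hx : x ∈ EC P)
    (hF : eᵀ * (toC Q * x) * e ≠ 0) {k : Type*} [Fintype k] [DecidableEq k] {W : Matrix n k ℂ} {V : Matrix k n ℂ}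
    (hVW : V * W = 1) (hWV : W * V = e) : ∃ K : Matrix k k ℂ, K * (Wᵀ * (toC Q * x) * W) = 1 := by
  obtain ⟨B, Bi, Qi, h1, h2, h3, h4, hM⟩ := H.exists_basis
  -- `y = e† x e`
  set y := Qi * eᵀ * toC Q * x * e with hy
  have hyE : y ∈ EC P := EC_mul (EC_mul (H.EC_adj h3 h4 he.mem) hx) he.mem
  have hQy : toC Q * y = eᵀ * (toC Q * x) * e := by
    calc toC Q * y = (toC Q * Qi) * eᵀ * toC Q * x * e := by
          rw [hy]
          simp only [mul_assoc]
      _ = _ := by
          rw [h3, one_mul]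
          simp only [mul_assoc]
  have hy0 : y ≠ 0 := by
    intro h0
    rw [h0, mul_zero] at hQy
    exact hF hQy.symm
  have hye : y * e = y := by
    rw [hy, mul_assoc _ e e, he.idem]
  -- the adjoint of `y`
  obtain ⟨κ, hκ⟩ := IsHW.exists_cc
  have hyc : yᴴ = (y.map κ)ᵀ := by
    ext i j
    simp [hκ]
  set T := (Bi * Biᴴ) * yᴴ * Mw w Q S P with hT
  have hTE : T ∈ EC P := by
    have e1 : Bi * Biᴴ = (Complex.I ^ w)⁻¹ • (C0 S P * Qi) := by
      calc Bi * Biᴴ = (Bi * Biᴴ) * toC Q * Qi := by rw [mul_assoc, h3, mul_one]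
        _ = _ := by rw [H.Mi_Q h1 h2 hM, smul_mul_assoc]
    have e2 : Qi * yᴴ * toC Q ∈ EC P := by
      rw [hyc]
      exact H.EC_adj h3 h4 (EC_aut κ hyE)
    have e3 : T = Qi * yᴴ * toC Q := by
      rw [hT, e1]
      unfold Mw
      rw [mul_smul_comm, smul_mul_assoc, smul_mul_assoc, smul_smul, mul_inv_cancel₀ (I_zpow_ne w), one_smul]
      calc C0 S P * Qi * yᴴ * (toC Q * C0 S P) = C0 S P * ((Qi * yᴴ * toC Q) * C0 S P) := by
            simp only [mul_assoc]
        _ = C0 S P * (C0 S P * (Qi * yᴴ * toC Q)) := by rw [EC_C0_32 e2]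
        _ = _ := by rw [← mul_assoc, H.C0_mul, one_mul]
    rw [e3]
    exact e2
  have htr : (y * T).trace ≠ 0 := IsHW.st_pos h1 h2 hM hy0
  obtain ⟨l, hl⟩ := he.min (T * y) (EC_mul hTE hyE)
  have hl' : e * T * y = l • e := by
    rw [← hl]
    calc e * T * y = e * T * (y * e) := by rw [hye]
      _ = _ := by simp only [mul_assoc]
  have hl0 : l ≠ 0 := by
    rintro rfl
    rw [zero_smul] at hl'
    apply htr
    calc (y * T).trace = (y * e * T).trace := by rw [hye]
      _ = (y * (e * T)).trace := by rw [mul_assoc]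
      _ = ((e * T) * y).trace := Matrix.trace_mul_comm _ _
      _ = 0 := by rw [hl', Matrix.trace_zero]
  -- the inverse
  refine ⟨l⁻¹ • (V * (e * T) * Qi * Vᵀ), ?_⟩
  have hWe : Wᵀ * eᵀ = Wᵀ := by
    rw [← Matrix.transpose_mul, ← hWV, Matrix.mul_assoc, hVW, Matrix.mul_one]
  have heW : e * W = W := by rw [← hWV, Matrix.mul_assoc, hVW, Matrix.mul_one]
  have e1 : Wᵀ * (toC Q * x) * W = Wᵀ * (toC Q * y) * W := by
    rw [hQy]
    calc Wᵀ * (toC Q * x) * W = (Wᵀ * eᵀ) * (toC Q * x) * (e * W) := by rw [hWe, heW]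
      _ = _ := by simp only [Matrix.mul_assoc]
  have e2 : Vᵀ * Wᵀ * (toC Q * y) = toC Q * y := by
    rw [← Matrix.transpose_mul, hWV, hQy]
    calc eᵀ * (eᵀ * (toC Q * x) * e) = (eᵀ * eᵀ) * (toC Q * x) * e := by simp only [mul_assoc]
      _ = _ := by rw [← Matrix.transpose_mul, he.idem]
  rw [e1, Matrix.smul_mul]
  calc l⁻¹ • (V * (e * T) * Qi * Vᵀ * (Wᵀ * (toC Q * y) * W))
      = l⁻¹ • (V * (e * T) * Qi * (Vᵀ * Wᵀ * (toC Q * y)) * W) := by simp only [Matrix.mul_assoc]
    _ = l⁻¹ • (V * (e * T) * (Qi * toC Q) * y * W) := by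
        rw [e2]
        simp only [Matrix.mul_assoc]
    _ = l⁻¹ • (V * (e * T * y) * W) := by
        rw [h4, Matrix.mul_one]
        simp only [Matrix.mul_assoc]
    _ = l⁻¹ • (l • (V * (e * W))) := by
        rw [hl', Matrix.mul_smul, Matrix.smul_mul, Matrix.mul_assoc]
    _ = 1 := by rw [heW, hVW, smul_smul, inv_mul_cancel₀ hl0, one_smul]

/-- the square of the determinant of a similitude on a block -/
private lemma det_blk32 (H : IsHW w Q S P) (hSD : SelfDual Q P) {e : Matrix n n ℂ} (he : IsBlk P e)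
    {A : Matrix n n ℂ} (hA : ∀ x ∈ EC P, A * x = x * A) {c : ℂ} (hc : Aᵀ * toC Q * A = c • toC Q) :
    (A * e + (1 - e)).det ^ 2 = c ^ e.rank := by
  obtain ⟨W, V, h1, h2⟩ := fac32 he.idem
  obtain ⟨x, hx, hF⟩ := hSD e he
  obtain ⟨K, hK⟩ := nondeg32 H he hx hF h1 h2
  have h3 := det_sq32 (comm_fac32 h1 h2 (hA e he.mem)) (hA x hx) hc hK
  rw [det32 h1 h2, h3, Fintype.card_fin]

private lemma cochar_sim32 (H : IsHW w Q S P) {z : ℂ} (hz : z ≠ 0) :
    (cochar S P z)ᵀ * toC Q * cochar S P z = z ^ w • toC Q := by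
  unfold cochar
  rw [H.sum_transpose_mul_Q (fun p => z ^ p), mul_assoc, H.sum_mul_sum (fun p => z ^ (w - p)) (fun p => z ^ p)]
  have h1 : ∀ p : ℤ, z ^ (w - p) * z ^ p = z ^ w := by
    intro p
    rw [← zpow_add₀ hz]
    congr 1
    ring
  simp_rw [h1]
  rw [← Finset.smul_sum, H.sum, mul_smul_comm, mul_one]

private lemma detQ32 (H : IsHW w Q S P) : (toC Q).det ≠ 0 := by
  obtain ⟨B, Bi, Qi, _, _, h3, _, _⟩ := H.exists_basis
  intro h0
  have := congrArg Matrix.det h3
  rw [Matrix.det_mul, h0, zero_mul, Matrix.det_one] at this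
  exact zero_ne_one this

/-- the conjugates of the cocharacter -/
private lemma cs_eq32 (σ : ℂ ≃+* ℂ) (z : ℂ) :
    ∑ p ∈ S, z ^ p • (P p).map σ = (cochar S P (σ.symm z)).map σ := by
  ext i j
  simp only [cochar, Matrix.sum_apply, Matrix.smul_apply, Matrix.map_apply, smul_eq_mul, map_sum, map_mul,
    map_zpow₀, RingEquiv.apply_symm_apply]

private lemma toC_map32 (σ : ℂ ≃+* ℂ) (A : Matrix n n ℚ) : (toC A).map σ = toC A := by
  ext i j
  simp [toC]

private lemma cs_sim32 (H : IsHW w Q S P) (σ : ℂ ≃+* ℂ) {z : ℂ} (hz : z ≠ 0) :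
    (∑ p ∈ S, z ^ p • (P p).map σ)ᵀ * toC Q * (∑ p ∈ S, z ^ p • (P p).map σ) = z ^ w • toC Q := by
  have hz' : σ.symm z ≠ 0 := by simpa using hz
  have h1 := congrArg (fun M : Matrix n n ℂ => M.map σ) (cochar_sim32 H hz')
  simp only [Matrix.map_mul, Matrix.transpose_map, toC_map32] at h1
  rw [cs_eq32, h1]
  ext i j
  simp only [Matrix.map_apply, Matrix.smul_apply, smul_eq_mul, map_mul, map_zpow₀, RingEquiv.apply_symm_apply]
  congr 1
  exact congrFun (congrFun (toC_map32 σ Q) i) j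

private lemma cs_comm32 (σ : ℂ ≃+* ℂ) (z : ℂ) {E : Matrix n n ℂ} (hE : E ∈ EC P) :
    (∑ p ∈ S, z ^ p • (P p).map σ) * E = E * (∑ p ∈ S, z ^ p • (P p).map σ) := by
  have h1 : ∀ p, (P p).map σ * E = E * (P p).map σ := by
    intro p
    have h2 := EC_P (EC_aut σ.symm hE) p
    have h3 := congrArg (fun M : Matrix n n ℂ => M.map σ) h2
    simp only [Matrix.map_mul] at h3
    have h4 : (E.map σ.symm).map σ = E := by
      ext i j
      simp
    rw [h4] at h3
    exact h3.symm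
  rw [Finset.sum_mul, Finset.mul_sum]
  refine Finset.sum_congr rfl fun p _ => ?_
  rw [smul_mul_assoc, h1, mul_smul_comm]

private lemma idm_map32 (H : IsHW w Q S P) (σ : ℂ ≃+* ℂ) : Idm S (fun p => (P p).map σ) := by
  refine ⟨fun p q => ?_, ?_⟩
  · have h1 := congrArg (fun M : Matrix n n ℂ => M.map σ) (H.mul p q)
    simp only [Matrix.map_mul] at h1
    rw [h1]
    split_ifs
    · rfl
    · exact Matrix.map_zero _ (map_zero _)
  · have h1 := congrArg (fun M : Matrix n n ℂ => M.map σ) H.sum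
    ext i j
    have h2 := congrFun (congrFun h1 i) j
    simp only [Matrix.map_apply, Matrix.sum_apply, map_sum] at h2 ⊢
    rw [h2, Matrix.one_apply]
    split_ifs <;> simp

private lemma cs_sq32 (H : IsHW w Q S P) (σ : ℂ ≃+* ℂ) (u : ℂ) :
    (∑ p ∈ S, u ^ p • (P p).map σ) * (∑ p ∈ S, u ^ p • (P p).map σ) = ∑ p ∈ S, (u ^ 2) ^ p • (P p).map σ := by
  have hm := (idm_map32 H σ).mul
  rw [Finset.sum_mul]
  refine Finset.sum_congr rfl fun p hp => ?_
  rw [Finset.mul_sum, Finset.sum_eq_single p]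
  · have h1 : (P p).map σ * (P p).map σ = (P p).map σ := by
      have := hm p p
      rwa [if_pos rfl] at this
    rw [smul_mul_smul_comm, h1, ← mul_zpow, pow_two]
  · intro q _ hq
    have h1 : (P p).map σ * (P q).map σ = 0 := by
      have := hm p q
      rwa [if_neg (Ne.symm hq)] at this
    rw [smul_mul_smul_comm, h1, smul_zero]
  · intro h
    exact absurd hp h

private lemma sq_blk32 {A E : Matrix n n ℂ} (hc : A * E = E * A) (hEE : E * E = E) :
    (A * A) * E + (1 - E) = (A * E + (1 - E)) * (A * E + (1 - E)) := by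
  have e1 : A * E * (A * E) = A * A * E := by
    calc A * E * (A * E) = A * (E * A) * E := by simp only [mul_assoc]
      _ = A * A * (E * E) := by rw [← hc]; simp only [mul_assoc]
      _ = _ := by rw [hEE]
  have e2 : A * E * (1 - E) = 0 := by rw [mul_sub, mul_one, mul_assoc, hEE, sub_self]
  have e3 : (1 - E) * (A * E) = 0 := by
    rw [sub_mul, one_mul, ← mul_assoc E, ← hc, mul_assoc, hEE, sub_self]
  have e4 : (1 - E) * (1 - E) = 1 - E := by
    rw [mul_sub, mul_one, sub_mul, one_mul, hEE, sub_self, sub_zero]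
  rw [add_mul, mul_add, mul_add, e1, e2, e3, e4]
  abel

/-- the determinant of the cocharacter on a block -/
private lemma cs_det32 (H : IsHW w Q S P) (hSD : SelfDual Q P) (σ : ℂ ≃+* ℂ) {z : ℂ} (hz : z ≠ 0)
    {e : Matrix n n ℂ} (he : IsBlk P e) {k : ℤ} (hk : w * (e.rank : ℤ) = 2 * k) :
    ((∑ p ∈ S, z ^ p • (P p).map σ) * e + (1 - e)).det = z ^ k := by
  obtain ⟨u, hu⟩ := IsAlgClosed.exists_pow_nat_eq z (show 0 < 2 by norm_num)
  have hu0 : u ≠ 0 := by
    rintro rfl
    rw [zero_pow (by norm_num)] at hu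
    exact hz hu.symm
  have h2 := det_blk32 H hSD he (fun x hx => cs_comm32 σ u hx) (cs_sim32 H σ hu0)
  rw [← hu, ← cs_sq32 H σ u, sq_blk32 (cs_comm32 σ u he.mem) he.idem, Matrix.det_mul, ← pow_two, h2,
    ← zpow_natCast (u ^ w), ← _root_.zpow_mul, hk, _root_.zpow_mul, zpow_ofNat]

/-- the weight times the rank of a block is even -/
private lemma even32 (H : IsHW w Q S P) (hSD : SelfDual Q P) {e : Matrix n n ℂ} (he : IsBlk P e) :
    Even (w * (e.rank : ℤ)) := by
  have h1 : (-1 : ℂ) ≠ 0 := by norm_num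
  have h2 := det_blk32 H hSD he (fun x hx => cs_comm32 (RingEquiv.refl ℂ) (-1) hx) (cs_sim32 H (RingEquiv.refl ℂ) h1)
  have h3 := cs_sq32 H (RingEquiv.refl ℂ) (-1)
  rw [neg_one_sq] at h3
  simp_rw [_root_.one_zpow, one_smul] at h3
  rw [(idm_map32 H (RingEquiv.refl ℂ)).sum] at h3
  have h4 := sq_blk32 (cs_comm32 (S := S) (RingEquiv.refl ℂ) (-1) he.mem) he.idem
  rw [h3, one_mul, add_sub_cancel] at h4
  have h5 := congrArg Matrix.det h4
  rw [Matrix.det_one, Matrix.det_mul, ← pow_two, h2, ← zpow_natCast ((-1 : ℂ) ^ w), ← _root_.zpow_mul] at h5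
  by_contra hcon
  rw [Int.not_even_iff_odd] at hcon
  rw [hcon.neg_one_zpow] at h5
  norm_num at h5

/-- the character of a tensor -/
private lemma chi32 (H : IsHW w Q S P) [Nonempty n] {g : GL n ℂ} (hg : g ∈ MT S P) {c : ℂ} (hc0 : c ≠ 0)
    (hc : (g : Matrix n n ℂ)ᵀ * toC Q * (g : Matrix n n ℂ) = c • toC Q) {a : ℕ} {u : (Fin a → n) → ℂ}
    (hu0 : ∃ i, u i ≠ 0) (h : ℕ)
    (hu : ∀ (σ : ℂ ≃+* ℂ) (z : ℂ), z ≠ 0 →
      actF (fun _ => ∑ p ∈ S, z ^ p • (P p).map σ) u = (z ^ (w * (h : ℤ))) • u)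
    {d : ℂ} (hd : actF (fun _ => (g : Matrix n n ℂ)) u = d • u) : d = c ^ h := by
  classical
  -- a nonzero entry of Q
  obtain ⟨x0, y0, hxy⟩ : ∃ x y, toC Q x y ≠ 0 := by
    by_contra hcon
    push Not at hcon
    have h0 : toC Q = 0 := by
      ext x y
      exact hcon x y
    have h3 := detQ32 H
    rw [h0, Matrix.det_zero] at h3
    exact h3 rfl
  obtain ⟨i0, hi0⟩ := hu0
  have ht : ∀ σ : ℂ ≃+* ℂ, dL a (h * 2) (pt32 u (qt32 h (toC Q)))
      ((∑ p ∈ S, (p : ℂ) • P p).map σ) = 0 := by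
    intro σ
    have h3 : (∑ p ∈ S, (p : ℂ) • P p).map σ = ∑ p ∈ S, (p : ℂ) • (P p).map σ := by
      ext i j
      simp only [Matrix.map_apply, Matrix.sum_apply, Matrix.smul_apply, smul_eq_mul, map_sum, map_mul, map_intCast]
    rw [h3]
    refine ((idm_map32 H σ).inv_iff _ _ _).1 fun z hz => ?_
    rw [eig_pt32 (c := z ^ (w * (h : ℤ))) (d := (z ^ (-w)) ^ h)]
    · rw [← zpow_natCast (z ^ (-w)) h, ← _root_.zpow_mul, ← zpow_add₀ hz]
      have h4 : w * (h : ℤ) + -w * (h : ℤ) = 0 := by ring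
      rw [h4, zpow_zero, one_smul]
    · exact hu σ z hz
    · rw [act_qt32, Matrix.transpose_transpose, cs_sim32 H σ (inv_ne_zero hz), qt_smul32, _root_.inv_zpow,
        _root_.zpow_neg]
  have h5 := H.MT_of_kill ht hg
  have hi : (((g⁻¹ : GL n ℂ) : Matrix n n ℂ))ᵀ * toC Q * ((g⁻¹ : GL n ℂ) : Matrix n n ℂ) = c⁻¹ • toC Q := by
    have e1 : (g : Matrix n n ℂ) * ((g⁻¹ : GL n ℂ) : Matrix n n ℂ) = 1 := by
      rw [← Units.val_mul, mul_inv_cancel, Units.val_one]
    have e2 : (((g⁻¹ : GL n ℂ) : Matrix n n ℂ))ᵀ * (g : Matrix n n ℂ)ᵀ = 1 := by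
      rw [← Matrix.transpose_mul, e1, Matrix.transpose_one]
    have e3 : (((g⁻¹ : GL n ℂ) : Matrix n n ℂ))ᵀ * ((g : Matrix n n ℂ)ᵀ * toC Q * (g : Matrix n n ℂ)) *
        ((g⁻¹ : GL n ℂ) : Matrix n n ℂ) = toC Q := by
      calc _ = ((((g⁻¹ : GL n ℂ) : Matrix n n ℂ))ᵀ * (g : Matrix n n ℂ)ᵀ) * toC Q *
          ((g : Matrix n n ℂ) * ((g⁻¹ : GL n ℂ) : Matrix n n ℂ)) := by simp only [mul_assoc]
        _ = toC Q := by rw [e1, e2, one_mul, mul_one]
    rw [hc, mul_smul_comm, smul_mul_assoc] at e3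
    rw [← e3, smul_smul, inv_mul_cancel₀ hc0, one_smul, e3]
  rw [eig_pt32 (c := d) (d := (c⁻¹) ^ h) hd
    (by rw [act_qt32, Matrix.transpose_transpose, hi, qt_smul32])] at h5
  have h6 := congrFun h5 (Sum.elim i0 (fun k => if (finProdFinEquiv.symm k).2 = 0 then x0 else y0))
  simp only [Pi.smul_apply, smul_eq_mul] at h6
  have h7 : pt32 u (qt32 h (toC Q))
      (Sum.elim i0 (fun k => if (finProdFinEquiv.symm k).2 = 0 then x0 else y0)) ≠ 0 := by
    unfold pt32
    exact mul_ne_zero hi0 (qt_ne32 hxy h)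
  have h8 : d * (c⁻¹) ^ h = 1 := mul_right_cancel₀ h7 (by rw [h6, one_mul])
  have h9 : c ^ h ≠ 0 := pow_ne_zero _ hc0
  rw [inv_pow] at h8
  field_simp at h8
  exact h8

/-- the character of a block -/
private lemma chi1_32 (H : IsHW w Q S P) (hSD : SelfDual Q P) [Nonempty n] {g : GL n ℂ} (hg : g ∈ MT S P) {c : ℂ}
    (hc0 : c ≠ 0) (hc : (g : Matrix n n ℂ)ᵀ * toC Q * (g : Matrix n n ℂ) = c • toC Q) {e : Matrix n n ℂ}
    (he : IsBlk P e) (h : ℕ) (hr : w * (e.rank : ℤ) = 2 * (w * (h : ℤ))) :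
    ((g : Matrix n n ℂ) * e + (1 - e)).det = c ^ h := by
  obtain ⟨W, V, h1, h2⟩ := fac32 he.idem
  refine chi32 H hg hc0 hc (u := dt32 W) (dt_ne32 h1) h ?_ ?_
  · intro σ z hz
    rw [act_dt32 (comm_fac32 h1 h2 (cs_comm32 σ z he.mem)), ← det32 h1 h2, cs_det32 H hSD σ hz he hr]
  · rw [act_dt32 (comm_fac32 h1 h2 (H.MT_EC hg he.mem)), ← det32 h1 h2]

/-- the character of two blocks -/
private lemma chi2_32 (H : IsHW w Q S P) (hSD : SelfDual Q P) [Nonempty n] {g : GL n ℂ} (hg : g ∈ MT S P) {c : ℂ}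
    (hc0 : c ≠ 0) (hc : (g : Matrix n n ℂ)ᵀ * toC Q * (g : Matrix n n ℂ) = c • toC Q) {e e' : Matrix n n ℂ}
    (he : IsBlk P e) (he' : IsBlk P e') {m : ℤ} (hw : w = 2 * m) (h : ℕ) (hr : e.rank + e'.rank = 2 * h) :
    ((g : Matrix n n ℂ) * e + (1 - e)).det * ((g : Matrix n n ℂ) * e' + (1 - e')).det = c ^ h := by
  obtain ⟨W, V, h1, h2⟩ := fac32 he.idem
  obtain ⟨W', V', h1', h2'⟩ := fac32 he'.idem
  refine chi32 H hg hc0 hc (u := at32 (dt32 W) (dt32 W')) (at_ne32 (dt_ne32 h1) (dt_ne32 h1')) h ?_ ?_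
  · intro σ z hz
    have a1 : w * (e.rank : ℤ) = 2 * (m * (e.rank : ℤ)) := by rw [hw]; ring
    have a2 : w * (e'.rank : ℤ) = 2 * (m * (e'.rank : ℤ)) := by rw [hw]; ring
    rw [act_at32 (act_dt32 (comm_fac32 h1 h2 (cs_comm32 σ z he.mem)))
      (act_dt32 (comm_fac32 h1' h2' (cs_comm32 σ z he'.mem))), ← det32 h1 h2, ← det32 h1' h2',
      cs_det32 H hSD σ hz he a1, cs_det32 H hSD σ hz he' a2, ← zpow_add₀ hz]
    have a3 : m * (e.rank : ℤ) + m * (e'.rank : ℤ) = w * (h : ℤ) := by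
      have a4 : (e.rank : ℤ) + (e'.rank : ℤ) = 2 * (h : ℤ) := by exact_mod_cast hr
      rw [hw, ← mul_add, a4]
      ring
    rw [a3]
  · rw [act_at32 (act_dt32 (comm_fac32 h1 h2 (H.MT_EC hg he.mem)))
      (act_dt32 (comm_fac32 h1' h2' (H.MT_EC hg he'.mem))), ← det32 h1 h2, ← det32 h1' h2']

namespace IsHW

theorem MT_InGw (H : IsHW w Q S P) (hSD : SelfDual Q P) {g : GL n ℂ} (hg : g ∈ MT S P) :
    InGw w Q P (g : Matrix n n ℂ) := by
  refine ⟨fun x hx => H.MT_EC hg hx, ?_⟩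
  rcases isEmpty_or_nonempty n with hn | hn
  · refine ⟨1, fun _ => rfl, by ext x; exact hn.elim x, fun e he => ?_⟩
    exact absurd (by ext x; exact hn.elim x) he.ne
  obtain ⟨c, hc0, hc⟩ := H.MT_sim hg
  by_cases hw0 : w = 0
  · -- weight zero
    have h1 : (1 : ℂ) = c ^ 1 := by
      refine chi32 H hg hc0 hc (a := 0) (u := fun _ => 1) ⟨fun k => k.elim0, one_ne_zero⟩ 1 ?_ ?_
      · intro σ z hz
        rw [hw0, zero_mul, zpow_zero, one_smul]
        funext i
        unfold actF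
        simp
      · rw [one_smul]
        funext i
        unfold actF
        simp
    rw [pow_one] at h1
    refine ⟨1, fun _ => rfl, by rw [hc, ← h1, one_pow], fun e he => ?_⟩
    rw [chi1_32 H hSD hg hc0 hc he 0 (by rw [hw0]; simp), pow_zero, one_pow]
  · have hev : ∀ e, IsBlk P e → ∀ h : ℕ, e.rank = 2 * h → ((g : Matrix n n ℂ) * e + (1 - e)).det = c ^ h := by
      intro e he h hh
      exact chi1_32 H hSD hg hc0 hc he h (by rw [hh]; push_cast; ring)
    by_cases hodd : ∃ e, IsBlk P e ∧ Odd e.rank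
    · obtain ⟨e0, he0, k0, hk0⟩ := hodd
      obtain ⟨m, hm⟩ : ∃ m, w = 2 * m := by
        have h1 := even32 H hSD he0
        rw [Int.even_mul] at h1
        rcases h1 with h1 | h1
        · obtain ⟨m, hm⟩ := h1
          exact ⟨m, by rw [hm]; ring⟩
        · rw [hk0] at h1
          exfalso
          obtain ⟨l, hl⟩ := h1
          push_cast at hl
          omega
      have hck : c ^ k0 ≠ 0 := pow_ne_zero _ hc0
      set z : ℂ := ((g : Matrix n n ℂ) * e0 + (1 - e0)).det / c ^ k0 with hz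
      have hdet0 : ((g : Matrix n n ℂ) * e0 + (1 - e0)).det = z * c ^ k0 := by
        rw [hz, div_mul_cancel₀ _ hck]
      have hz2 : z ^ 2 = c := by
        have h1 := det_blk32 H hSD he0 (fun x hx => H.MT_EC hg hx) hc
        rw [hdet0, hk0] at h1
        have h2 : z ^ 2 * (c ^ k0) ^ 2 = c * (c ^ k0) ^ 2 := by
          rw [← mul_pow, h1]
          ring
        exact mul_right_cancel₀ (pow_ne_zero 2 hck) h2
      have hz0 : z ≠ 0 := by
        intro h0
        rw [h0, zero_pow two_ne_zero] at hz2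
        exact hc0 hz2.symm
      refine ⟨z, fun h => absurd h hw0, by rw [hz2, hc], fun e he => ?_⟩
      rcases Nat.even_or_odd' e.rank with ⟨k, hk | hk⟩
      · rw [hev e he k hk, hk, pow_mul, hz2]
      · have h1 := chi2_32 H hSD hg hc0 hc he he0 hm (k + k0 + 1) (by omega)
        rw [hdet0] at h1
        rw [hk, pow_succ, pow_mul, hz2]
        have h2 : ((g : Matrix n n ℂ) * e + (1 - e)).det * (z * c ^ k0) = (c ^ k * z) * (z * c ^ k0) := by
          rw [h1]
          have h3 : c ^ (k + k0 + 1) = c ^ k * c * c ^ k0 := by ring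
          rw [h3]
          nth_rewrite 2 [← hz2]
          ring
        exact mul_right_cancel₀ (mul_ne_zero hz0 hck) h2
    · push Not at hodd
      obtain ⟨z, hz⟩ := IsAlgClosed.exists_pow_nat_eq c (show 0 < 2 by norm_num)
      refine ⟨z, fun h => absurd h hw0, by rw [hz, hc], fun e he => ?_⟩
      obtain ⟨k, hk⟩ := Nat.not_odd_iff_even.1 (hodd e he)
      have hk' : e.rank = 2 * k := by omega
      rw [hev e he k hk', hk', pow_mul, hz]

end IsHW

end MH
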